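import Pool.Agent.MP_9fbb57_co.Defs

section

/-!
Degrees, degree sums, and the fact that an undecided game ends in a balanced good colouring.
-/

namespace Pool.Agent.MP_9fbb57_co.Gen

open SimpleGraph Finset

variable {V : Type} [Fintype V]

open Classical in
/-- neighbours -/
noncomputable def nb (G : SimpleGraph V) (v : V) : Finset V := univ.filter (fun u => G.Adj v u)

/-- degree -/
noncomputable def dg (G : SimpleGraph V) (v : V) : ℕ := (nb G v).card

/-- degree sum -/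
noncomputable def sd (G : SimpleGraph V) : ℕ := ∑ v, dg G v

@[simp] lemma mem_nb {G : SimpleGraph V} {v u : V} : u ∈ nb G v ↔ G.Adj v u := by
  simp [nb]

lemma dg_mono {G H : SimpleGraph V} (h : G ≤ H) (v : V) : dg G v ≤ dg H v :=
  card_le_card fun _ hu => mem_nb.2 (h (mem_nb.1 hu))

lemma dg_pos {G : SimpleGraph V} {v u : V} (h : G.Adj v u) : 1 ≤ dg G v :=
  card_pos.2 ⟨u, mem_nb.2 h⟩

lemma exists_adj {G : SimpleGraph V} {v : V} (h : 1 ≤ dg G v) : ∃ u, G.Adj v u := by
  obtain ⟨u, hu⟩ := card_pos.1 h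
  exact ⟨u, mem_nb.1 hu⟩

lemma dg_bot (v : V) : dg (⊥ : SimpleGraph V) v = 0 := by
  simp [dg, nb]

lemma sd_bot : sd (⊥ : SimpleGraph V) = 0 := by
  simp [sd, dg_bot]

lemma dg_compl (G : SimpleGraph V) (v : V) : dg G v + dg Gᶜ v + 1 = Fintype.card V := by
  classical
  have h1 : Disjoint (nb G v) (nb Gᶜ v) := by
    rw [Finset.disjoint_left]
    intro u h1 h2
    exact ((compl_adj _ _ _).1 (mem_nb.1 h2)).2 (mem_nb.1 h1)
  have h2 : nb G v ∪ nb Gᶜ v = univ.erase v := by
    ext u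
    simp only [mem_union, mem_nb, compl_adj, mem_erase, mem_univ, and_true]
    constructor
    · rintro (h | h)
      · exact h.ne'
      · exact h.1.symm
    · intro h
      by_cases h' : G.Adj v u
      · exact Or.inl h'
      · exact Or.inr ⟨fun e => h e.symm, h'⟩
  have h3 := card_union_of_disjoint h1
  rw [h2, card_erase_of_mem (mem_univ v), card_univ] at h3
  have : 0 < Fintype.card V := Fintype.card_pos_iff.2 ⟨v⟩
  unfold dg
  omega

lemma sup_edge_adj {G : SimpleGraph V} {u v : V} (huv : u ≠ v) (a b : V) :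
    (G ⊔ edge u v).Adj a b ↔ G.Adj a b ∨ (a = u ∧ b = v) ∨ (a = v ∧ b = u) := by
  rw [sup_adj, edge_adj]
  constructor
  · rintro (h | h)
    · exact Or.inl h
    · exact Or.inr h.1
  · rintro (h | h)
    · exact Or.inl h
    · refine Or.inr ⟨h, ?_⟩
      rcases h with ⟨rfl, rfl⟩ | ⟨rfl, rfl⟩
      · exact huv
      · exact huv.symm

lemma dg_sup_left {G : SimpleGraph V} {u v : V} (huv : u ≠ v) (h : ¬ G.Adj u v) :
    dg (G ⊔ edge u v) u = dg G u + 1 := by
  classical
  have : nb (G ⊔ edge u v) u = insert v (nb G u) := by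
    ext b
    simp only [mem_nb, sup_edge_adj huv, mem_insert]
    constructor
    · rintro (h | h | h)
      · exact Or.inr h
      · exact Or.inl h.2
      · exact absurd h.1 huv
    · rintro (h | h)
      · exact Or.inr (Or.inl ⟨trivial, h⟩)
      · exact Or.inl h
  unfold dg
  rw [this, card_insert_of_notMem (by simpa using h)]

lemma dg_sup_right {G : SimpleGraph V} {u v : V} (huv : u ≠ v) (h : ¬ G.Adj u v) :
    dg (G ⊔ edge u v) v = dg G v + 1 := by
  rw [edge_comm]
  exact dg_sup_left huv.symm (fun h' => h h'.symm)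

lemma dg_sup_other {G : SimpleGraph V} {u v x : V} (huv : u ≠ v) (hu : x ≠ u) (hv : x ≠ v) :
    dg (G ⊔ edge u v) x = dg G x := by
  have : nb (G ⊔ edge u v) x = nb G x := by
    ext b
    simp [sup_edge_adj huv, hu, hv]
  unfold dg
  rw [this]

lemma sd_sup {G : SimpleGraph V} {u v : V} (huv : u ≠ v) (h : ¬ G.Adj u v) :
    sd (G ⊔ edge u v) = sd G + 2 := by
  classical
  have : ∀ x, dg (G ⊔ edge u v) x = dg G x + ((if x = u then 1 else 0) + (if x = v then 1 else 0)) := by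
    intro x
    by_cases hu : x = u
    · subst hu
      simp [dg_sup_left huv h, huv]
    · by_cases hv : x = v
      · subst hv
        simp [dg_sup_right huv h, hu]
      · simp [dg_sup_other huv hu hv, hu, hv]
  simp [sd, this, sum_add_distrib]

lemma sd_compl (G : SimpleGraph V) :
    sd G + sd Gᶜ + Fintype.card V = Fintype.card V * Fintype.card V := by
  have : ∑ v : V, (dg G v + dg Gᶜ v + 1) = ∑ _v : V, Fintype.card V :=
    sum_congr rfl fun v _ => dg_compl G v
  simpa [sd, sum_add_distrib] using this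

/-- double counting of the edges between two sets -/
lemma sum_inter (G : SimpleGraph V) [DecidableEq V] (S T : Finset V) :
    ∑ a ∈ S, (nb G a ∩ T).card = ∑ t ∈ T, (nb G t ∩ S).card := by
  classical
  have h1 : ∀ (S T : Finset V) (a : V), (nb G a ∩ T).card = ∑ t ∈ T, if G.Adj a t then 1 else 0 := by
    intro S T a
    rw [← card_filter]
    congr 1
    ext t
    simp [and_comm]
  rw [sum_congr rfl fun a _ => h1 S T a, sum_congr rfl fun t _ => h1 T S t, sum_comm]
  refine sum_congr rfl fun t _ => sum_congr rfl fun a _ => ?_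
  simp [G.adj_comm]

/-- deleting the edges at a set of vertices -/
lemma sd_le_of_off {G G' : SimpleGraph V} (T : Finset V)
    (h : ∀ a b, G.Adj a b → a ∉ T → b ∉ T → G'.Adj a b) :
    sd G ≤ sd G' + 2 * ∑ t ∈ T, dg G t := by
  classical
  have h1 : ∀ a ∈ Tᶜ, dg G a ≤ dg G' a + (nb G a ∩ T).card := by
    intro a ha
    refine le_trans (card_le_card ?_) (card_union_le _ _)
    intro b hb
    by_cases hbT : b ∈ T
    · exact mem_union_right _ (mem_inter.2 ⟨hb, hbT⟩)
    · exact mem_union_left _ (mem_nb.2 (h a b (mem_nb.1 hb) (mem_compl.1 ha) hbT))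
  have h2 := sum_le_sum h1
  rw [sum_add_distrib, sum_inter] at h2
  have h3 : ∑ t ∈ T, (nb G t ∩ Tᶜ).card ≤ ∑ t ∈ T, dg G t :=
    sum_le_sum fun t _ => card_le_card inter_subset_left
  have h4 : ∑ a ∈ Tᶜ, dg G' a ≤ sd G' := sum_le_sum_of_subset (subset_univ _)
  have h5 : ∑ a ∈ T, dg G a + ∑ a ∈ Tᶜ, dg G a = sd G := sum_add_sum_compl T _
  omega

lemma compl_eq_of_full {X Y : SimpleGraph V} (hd : ∀ a b, X.Adj a b → ¬ Y.Adj a b)
    (h : ¬ ∃ u v, Unclaimed X Y u v) : Xᶜ = Y := by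
  ext a b
  rw [compl_adj]
  constructor
  · rintro ⟨h1, h2⟩
    by_contra h3
    exact h ⟨a, b, h1, h2, h3⟩
  · intro h1
    exact ⟨h1.ne, fun h2 => hd a b h2 h1⟩

lemma disj_move {X Y : SimpleGraph V} {u v : V} (hd : ∀ a b, X.Adj a b → ¬ Y.Adj a b)
    (h : Unclaimed X Y u v) : ∀ a b, Y.Adj a b → ¬ (X ⊔ edge u v).Adj a b := by
  intro a b hY hX
  rcases (sup_edge_adj h.1 a b).1 hX with h1 | ⟨rfl, rfl⟩ | ⟨rfl, rfl⟩
  · exact hd a b h1 hY
  · exact h.2.2 hY
  · exact h.2.2 hY.symm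

lemma le_compl_of_disj {X Y : SimpleGraph V} (hd : ∀ a b, X.Adj a b → ¬ Y.Adj a b) : Y ≤ Xᶜ :=
  fun a b h => (compl_adj _ _ _).2 ⟨h.ne, fun h' => hd a b h' h⟩

/-- A position that nobody wins extends to a good colouring, in which the player to move gets as
many new edges as the other one, or one more. -/
lemma det {α : Type} (G : SimpleGraph α) (n : ℕ) : ∀ X Y : SimpleGraph V,
    Fintype.card V * Fintype.card V ≤ sd X + sd Y + n → (∀ a b, X.Adj a b → ¬ Y.Adj a b) →
    ¬ G.IsContained X → ¬ G.IsContained Y →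
    Wins G true X Y ∨ Wins G false X Y ∨ ∃ C : SimpleGraph V, X ≤ C ∧ Y ≤ Cᶜ ∧
      ¬ G.IsContained C ∧ ¬ G.IsContained Cᶜ ∧
      (sd C + sd Y = sd Cᶜ + sd X ∨ sd C + sd Y = sd Cᶜ + sd X + 2) := by
  induction n using Nat.strong_induction_on with
  | _ n ih =>
  intro X Y hn hd hX hY
  by_cases hopen : ∃ u v, Unclaimed X Y u v
  · by_cases h1 : Wins G true X Y
    · exact Or.inl h1
    by_cases h2 : Wins G false X Y
    · exact Or.inr (Or.inl h2)
    refine Or.inr (Or.inr ?_)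
    have : ∃ u v, Unclaimed X Y u v ∧ ¬ G.IsContained (X ⊔ edge u v) ∧
        ¬ Wins G true Y (X ⊔ edge u v) := by
      by_contra hc
      refine h2 (Wins.wait X Y hopen fun u v hu hs => ?_)
      by_contra hw
      exact hc ⟨u, v, hu, hs, hw⟩
    obtain ⟨u, v, hu, hs, hw⟩ := this
    have hsd := sd_sup hu.1 hu.2.1
    have hd' := disj_move hd hu
    have hle : sd (X ⊔ edge u v) ≤ sd Yᶜ :=
      sum_le_sum fun x _ => dg_mono (le_compl_of_disj hd') x
    have hc := sd_compl Y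
    have hn0 : 1 ≤ n := by omega
    rcases ih (n - 1) (by omega) Y (X ⊔ edge u v) (by omega) hd' hY hs with h | h | h
    · exact absurd h hw
    · exact absurd (Wins.move X Y u v hu hs h) h1
    · obtain ⟨C, h3, h4, h5, h6, h7⟩ := h
      refine ⟨Cᶜ, le_trans le_sup_left h4, by simpa using h3, h6, by simpa using h5, ?_⟩
      rw [compl_compl]
      omega
  · refine Or.inr (Or.inr ⟨X, le_rfl, le_compl_of_disj hd, hX, ?_, ?_⟩)
    · rwa [compl_eq_of_full hd hopen]
    · rw [compl_eq_of_full hd hopen]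
      omega

/-- If every balanced colouring of `K_N` has a monochromatic copy of `G`, the game is decided. -/
lemma decided_of_balanced {α : Type} (G : SimpleGraph α) (N : ℕ) (hN : 2 ≤ N)
    (h : ∀ C : SimpleGraph (Fin N), (sd C = sd Cᶜ ∨ sd C = sd Cᶜ + 2) →
      G.IsContained C ∨ G.IsContained Cᶜ) : Decided G N := by
  by_cases hb : G.IsContained (⊥ : SimpleGraph (Fin N))
  · refine Or.inr (Wins.wait _ _ ⟨⟨0, by omega⟩, ⟨1, by omega⟩, by simp, by simp, by simp⟩ ?_)
    intro u v _ hs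
    exact absurd (hb.mono_right bot_le) hs
  · rcases det G (Fintype.card (Fin N) * Fintype.card (Fin N)) (⊥ : SimpleGraph (Fin N)) ⊥
      (by omega) (by simp) hb hb with h1 | h1 | ⟨C, -, -, h3, h4, h5⟩
    · exact Or.inl h1
    · exact Or.inr h1
    · rw [sd_bot] at h5
      rcases h C (by omega) with h6 | h6
      · exact absurd h6 h3
      · exact absurd h6 h4

lemma exists_winNumber {α : Type} (G : SimpleGraph α) (M : ℕ) (h : ∀ N, M ≤ N → Decided G N) :
    ∃ w, IsWinNumber G w ∧ w ≤ M := by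
  have hne : {M : ℕ | ∀ N, M ≤ N → Decided G N}.Nonempty := ⟨M, h⟩
  exact ⟨sInf _, ⟨Nat.sInf_mem hne, fun _ hm => Nat.sInf_le hm⟩, Nat.sInf_le h⟩

/-- the arrow property is monotone in the number of vertices -/
lemma arrow_mono {α : Type} (G : SimpleGraph α) {W W' : Type} (f : W ↪ W')
    (h : ∀ X : SimpleGraph W, G.IsContained X ∨ G.IsContained Xᶜ) (X : SimpleGraph W') :
    G.IsContained X ∨ G.IsContained Xᶜ := by
  rcases h (X.comap f) with h1 | h1
  · exact Or.inl (h1.trans ⟨(Embedding.comap f X).toCopy⟩)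
  · refine Or.inr (h1.trans ⟨⟨⟨f, fun {a b} hab => ?_⟩, f.injective⟩⟩)
    rw [compl_adj] at hab ⊢
    exact ⟨fun e => hab.1 (f.injective e), hab.2⟩

end Pool.Agent.MP_9fbb57_co.Gen

end

section

/-!
The degree game: on `N ≤ 2 D - sqrt (8 D log (2 D))` vertices each player can keep all his degrees
below `D`, so a game whose target graph needs a vertex of degree `D` is a draw.
-/

namespace Pool.Agent.MP_9fbb57_co.Gen

open SimpleGraph Finset

variable {V : Type} [Fintype V]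

/-- weight of a vertex for the avoider, who owns `A` -/
noncomputable def wt (l : ℝ) (A F : SimpleGraph V) (v : V) : ℝ :=
  (1 + l) ^ dg A v * (1 - l) ^ dg F v

lemma wt_nonneg {l : ℝ} (h0 : 0 ≤ l) (h1 : l ≤ 1) (A F : SimpleGraph V) (v : V) :
    0 ≤ wt l A F v :=
  mul_nonneg (pow_nonneg (by linarith) _) (pow_nonneg (by linarith) _)

lemma sum_two [DecidableEq V] (f g : V → ℝ) (c : ℝ) {u v : V} (huv : u ≠ v)
    (hu : g u = f u * (1 + c)) (hv : g v = f v * (1 + c))
    (ho : ∀ x, x ≠ u → x ≠ v → g x = f x) : ∑ x, g x = ∑ x, f x + c * (f u + f v) := by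
  have : ∀ x, g x = f x + ((if x = u then c * f u else 0) + (if x = v then c * f v else 0)) := by
    intro x
    by_cases h1 : x = u
    · subst h1
      simp only [if_true, if_neg huv, hu]
      ring
    · by_cases h2 : x = v
      · subst h2
        simp only [if_true, if_neg h1, hv]
        ring
      · simp [ho x h1 h2, h1, h2]
  simp only [this, sum_add_distrib, sum_ite_eq', mem_univ, if_true]
  ring

lemma wt_own (l : ℝ) {A F : SimpleGraph V} {u v : V} (huv : u ≠ v) (h : ¬ A.Adj u v) :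
    ∑ x, wt l (A ⊔ edge u v) F x = ∑ x, wt l A F x + l * (wt l A F u + wt l A F v) := by
  classical
  refine sum_two _ _ l huv ?_ ?_ ?_
  · simp only [wt, dg_sup_left huv h]
    ring
  · simp only [wt, dg_sup_right huv h]
    ring
  · intro x h1 h2
    simp only [wt, dg_sup_other huv h1 h2]

lemma wt_opp (l : ℝ) {A F : SimpleGraph V} {u v : V} (huv : u ≠ v) (h : ¬ F.Adj u v) :
    ∑ x, wt l A (F ⊔ edge u v) x = ∑ x, wt l A F x + (-l) * (wt l A F u + wt l A F v) := by
  classical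
  refine sum_two _ _ (-l) huv ?_ ?_ ?_
  · simp only [wt, dg_sup_left huv h]
    ring
  · simp only [wt, dg_sup_right huv h]
    ring
  · intro x h1 h2
    simp only [wt, dg_sup_other huv h1 h2]

lemma wt_mono {l : ℝ} (h0 : 0 ≤ l) (h1 : l ≤ 1) {A A' F : SimpleGraph V} (h : A ≤ A') (v : V) :
    wt l A F v ≤ wt l A' F v :=
  mul_le_mul_of_nonneg_right (pow_le_pow_right₀ (by linarith) (dg_mono h v))
    (pow_nonneg (by linarith) _)

lemma not_wins {α : Type} (G : SimpleGraph α) (D : ℕ) {l : ℝ} (h0 : 0 ≤ l) (h1 : l ≤ 1)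
    (hG : ∀ Z : SimpleGraph V, G.IsContained Z → ∃ v, D ≤ dg Z v)
    (hbig : ∀ a f : ℕ, D ≤ a → a + f + 1 ≤ Fintype.card V →
      (Fintype.card V : ℝ) * (1 + l) < (1 + l) ^ a * (1 - l) ^ f)
    {b : Bool} {X Y : SimpleGraph V} (h : Wins G b X Y) :
    (∀ a c, X.Adj a c → ¬ Y.Adj a c) →
    (b = false → ¬ ∑ x, wt l X Y x ≤ Fintype.card V) ∧
    (b = true → ¬ ∀ u v, Unclaimed X Y u v →
      ∑ x, wt l Y (X ⊔ edge u v) x ≤ Fintype.card V) := by
  classical
  induction h with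
  | move X Y u v hfree hsafe hnext ih =>
    intro hd
    exact ⟨fun e => by simp at e, fun _ hq => (ih (disj_move hd hfree)).1 rfl (hq u v hfree)⟩
  | wait X Y hopen hnext ih =>
    intro hd
    refine ⟨fun _ hP => ?_, fun e => by simp at e⟩
    obtain ⟨u0, v0, h00⟩ := hopen
    obtain ⟨p, hp, hmin⟩ := exists_min_image
      (univ.filter fun p : V × V => Unclaimed X Y p.1 p.2)
      (fun p => wt l X Y p.1 + wt l X Y p.2) ⟨(u0, v0), by simpa using h00⟩
    have hp' : Unclaimed X Y p.1 p.2 := (mem_filter.1 hp).2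
    have e1 := wt_own l (F := Y) hp'.1 hp'.2.1
    have hd' := disj_move hd hp'
    have hsafe : ¬ G.IsContained (X ⊔ edge p.1 p.2) := by
      intro hc
      obtain ⟨x, hx⟩ := hG _ hc
      have a1 := dg_compl (X ⊔ edge p.1 p.2) x
      have a2 := dg_mono (le_compl_of_disj fun a c h1 h2 => hd' a c h2 h1) x
      have a3 := hbig _ (dg Y x) hx (by omega)
      have a4 : wt l (X ⊔ edge p.1 p.2) Y x ≤ ∑ y, wt l (X ⊔ edge p.1 p.2) Y y :=
        single_le_sum (fun y _ => wt_nonneg h0 h1 _ _ y) (mem_univ x)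
      have a5 : ∑ y ∈ ({p.1, p.2} : Finset V), wt l X Y y ≤ ∑ y, wt l X Y y :=
        sum_le_sum_of_subset_of_nonneg (subset_univ _) fun y _ _ => wt_nonneg h0 h1 _ _ y
      rw [sum_pair hp'.1] at a5
      have a6 : l * (wt l X Y p.1 + wt l X Y p.2) ≤ l * Fintype.card V :=
        mul_le_mul_of_nonneg_left (a5.trans hP) h0
      unfold wt at a4
      unfold wt at e1
      unfold wt at hP
      unfold wt at a6
      linarith
    refine (ih p.1 p.2 hp' hsafe hd').2 rfl fun x y hxy => ?_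
    have e2 := wt_opp l (A := X ⊔ edge p.1 p.2) hxy.1 hxy.2.1
    have hxy' : Unclaimed X Y x y := ⟨hxy.1, fun e => hxy.2.2 (Or.inl e), hxy.2.1⟩
    have m1 := hmin (x, y) (by simpa using hxy')
    have m2 := wt_mono h0 h1 (F := Y) (le_sup_left : X ≤ X ⊔ edge p.1 p.2) x
    have m3 := wt_mono h0 h1 (F := Y) (le_sup_left : X ≤ X ⊔ edge p.1 p.2) y
    have m4 : l * (wt l X Y p.1 + wt l X Y p.2) ≤
        l * (wt l (X ⊔ edge p.1 p.2) Y x + wt l (X ⊔ edge p.1 p.2) Y y) :=
      mul_le_mul_of_nonneg_left (by simp only at m1; linarith) h0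
    linarith

lemma numeric (D N t a f : ℕ) (hD : 1 ≤ D) (hN : N + t = 2 * D)
    (ht : 8 * (D : ℝ) * Real.log (2 * D) < (t : ℝ) ^ 2) (ha : D ≤ a) (hf : a + f + 1 ≤ N) :
    (N : ℝ) * (1 + t / (4 * D)) < (1 + t / (4 * D) : ℝ) ^ a * (1 - t / (4 * D) : ℝ) ^ f := by
  set l : ℝ := t / (4 * D) with hl
  have hDp : (0 : ℝ) < D := by exact_mod_cast hD
  have htD : (t : ℝ) ≤ 2 * D := by exact_mod_cast (by omega : t ≤ 2 * D)
  have l0 : 0 ≤ l := by positivity
  have l1 : l ≤ 1 / 2 := by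
    rw [hl, div_le_iff₀ (by positivity)]
    linarith
  have e1 : Real.exp (-(2 * l ^ 2)) ≤ 1 - l ^ 2 := by
    rw [Real.exp_neg, inv_le_comm₀ (Real.exp_pos _) (by nlinarith)]
    refine le_trans ?_ (Real.add_one_le_exp _)
    rw [inv_le_iff_one_le_mul₀ (by nlinarith)]
    have : l ^ 2 ≤ 1 / 4 := by nlinarith
    nlinarith [sq_nonneg l]
  have e2 : Real.exp l * (1 - l) ≤ 1 := by
    have := Real.add_one_le_exp (-l)
    calc Real.exp l * (1 - l) ≤ Real.exp l * Real.exp (-l) :=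
          mul_le_mul_of_nonneg_left (by linarith) (Real.exp_pos _).le
      _ = 1 := by rw [← Real.exp_add]; simp
  have e3 : Real.exp (l - 2 * l ^ 2) ≤ 1 + l := by
    rw [sub_eq_add_neg, Real.exp_add]
    calc Real.exp l * Real.exp (-(2 * l ^ 2)) ≤ Real.exp l * (1 - l ^ 2) :=
          mul_le_mul_of_nonneg_left e1 (Real.exp_pos _).le
      _ = Real.exp l * (1 - l) * (1 + l) := by ring
      _ ≤ 1 * (1 + l) := mul_le_mul_of_nonneg_right e2 (by linarith)
      _ = 1 + l := by ring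
  obtain ⟨j, rfl⟩ : ∃ j, a = f + t + 1 + j := ⟨a - (f + t + 1), by omega⟩
  have hft : ((f : ℝ) + t) ≤ D := by exact_mod_cast (by omega : f + t ≤ D)
  have k1 : Real.exp (f * (-(2 * l ^ 2))) ≤ (1 - l ^ 2) ^ f := by
    rw [Real.exp_nat_mul]
    exact pow_le_pow_left₀ (Real.exp_pos _).le e1 f
  have k2 : Real.exp (t * (l - 2 * l ^ 2)) ≤ (1 + l) ^ t := by
    rw [Real.exp_nat_mul]
    exact pow_le_pow_left₀ (Real.exp_pos _).le e3 t
  have k3 : (1 : ℝ) ≤ (1 + l) ^ j := one_le_pow₀ (by linarith)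
  have k4 : (N : ℝ) < Real.exp (f * (-(2 * l ^ 2)) + t * (l - 2 * l ^ 2)) := by
    have hN' : (N : ℝ) ≤ 2 * D := by exact_mod_cast (by omega : N ≤ 2 * D)
    refine lt_of_le_of_lt hN' ?_
    rw [← Real.log_lt_iff_lt_exp (by positivity)]
    have q1 : (t : ℝ) = l * (4 * D) := by rw [hl]; field_simp
    have q2 : Real.log (2 * D) < 2 * D * l ^ 2 := by
      have : 8 * (D : ℝ) * Real.log (2 * D) < 8 * D * (2 * D * l ^ 2) := by
        calc _ < (t : ℝ) ^ 2 := ht
          _ = _ := by rw [q1]; ring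
      exact lt_of_mul_lt_mul_left this (by positivity)
    have q3 : ((f : ℝ) + t) * l ^ 2 ≤ D * l ^ 2 := mul_le_mul_of_nonneg_right hft (sq_nonneg l)
    have q4 : (t : ℝ) * l = 4 * D * l ^ 2 := by rw [q1]; ring
    nlinarith
  rw [Real.exp_add] at k4
  have k5 : Real.exp (f * (-(2 * l ^ 2))) * Real.exp (t * (l - 2 * l ^ 2)) ≤
      (1 - l ^ 2) ^ f * (1 + l) ^ t :=
    mul_le_mul k1 k2 (Real.exp_pos _).le (pow_nonneg (by nlinarith) _)
  have k6 : (1 + l) ^ (f + t + 1 + j) * (1 - l) ^ f =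
      (1 - l ^ 2) ^ f * (1 + l) ^ t * (1 + l) ^ j * (1 + l) := by
    have : (1 - l ^ 2) ^ f = (1 + l) ^ f * (1 - l) ^ f := by rw [← mul_pow]; congr 1; ring
    rw [this]
    ring
  rw [k6]
  refine mul_lt_mul_of_pos_right ?_ (by linarith)
  have k7 : 0 ≤ (1 - l ^ 2) ^ f * (1 + l) ^ t :=
    mul_nonneg (pow_nonneg (by nlinarith) _) (pow_nonneg (by linarith) _)
  nlinarith

theorem winNumber_lower {α : Type} (G : SimpleGraph α) (D : ℕ) (hD : 1 ≤ D)
    (hG : ∀ (N : ℕ) (Z : SimpleGraph (Fin N)), G.IsContained Z → ∃ v, D ≤ dg Z v) {w : ℕ}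
    (hw : Decided G w) : 2 * (D : ℝ) - √(8 * D * Real.log (2 * D)) ≤ w := by
  by_contra hlt
  have hlt := not_le.1 hlt
  have hs := Real.sqrt_nonneg (8 * D * Real.log (2 * D))
  have h2 : w ≤ 2 * D := by
    have : (w : ℝ) ≤ 2 * D := by linarith
    exact_mod_cast this
  obtain ⟨t, ht⟩ := Nat.exists_eq_add_of_le h2
  have ht' : (t : ℝ) = 2 * D - w := by
    have : (2 * D : ℝ) = w + t := by exact_mod_cast ht
    linarith
  have h3 : 8 * (D : ℝ) * Real.log (2 * D) < (t : ℝ) ^ 2 :=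
    Real.lt_sq_of_sqrt_lt (by linarith)
  have hDp : (0 : ℝ) < D := by exact_mod_cast hD
  have l0 : (0 : ℝ) ≤ t / (4 * D) := by positivity
  have l1 : (t : ℝ) / (4 * D) ≤ 1 := by
    rw [div_le_iff₀ (by positivity)]
    have : (0 : ℝ) ≤ w := by positivity
    linarith
  have big : ∀ a f : ℕ, D ≤ a → a + f + 1 ≤ Fintype.card (Fin w) →
      (Fintype.card (Fin w) : ℝ) * (1 + t / (4 * D)) <
        (1 + t / (4 * D) : ℝ) ^ a * (1 - t / (4 * D) : ℝ) ^ f := by
    intro a f ha hf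
    rw [Fintype.card_fin] at hf ⊢
    exact numeric D w t a f hD ht.symm h3 ha hf
  have h0 : ∑ x : Fin w, wt (t / (4 * D)) ⊥ ⊥ x = Fintype.card (Fin w) := by
    simp [wt, dg_bot]
  rcases hw with h | h
  · refine (not_wins G D l0 l1 (hG w) big h (by simp)).2 rfl fun u v huv => ?_
    rw [wt_opp _ huv.1 huv.2.1, h0]
    have := wt_nonneg l0 l1 (⊥ : SimpleGraph (Fin w)) ⊥ u
    have := wt_nonneg l0 l1 (⊥ : SimpleGraph (Fin w)) ⊥ v
    nlinarith
  · exact (not_wins G D l0 l1 (hG w) big h (by simp)).1 rfl h0.le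

end Pool.Agent.MP_9fbb57_co.Gen

end
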