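import Pool.Agent.Mg.F9fbb57a.G31c768

section

/-!
The second player wins the reverse star game on `2 d + 1` vertices (degrees at most `d`).
-/

namespace Pool.Agent.MP_9fbb57_co.Gen

open SimpleGraph Finset

variable {V : Type} [Fintype V] {d : ℕ} {X Y C : SimpleGraph V}

/-- `C` is the red graph of a full colouring that extends the position, all degrees at most `d`. -/
structure Comp (d : ℕ) (X Y C : SimpleGraph V) : Prop where
  red : X ≤ C
  blue : Y ≤ Cᶜ
  dred : ∀ v, dg C v ≤ d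
  dblue : ∀ v, dg Cᶜ v ≤ d

/-- unclaimed edges that blue may take -/
def Hg (d : ℕ) (X Y : SimpleGraph V) : SimpleGraph V where
  Adj u v := Unclaimed X Y u v ∧ dg Y u < d ∧ dg Y v < d
  symm := ⟨fun _ _ h => ⟨⟨h.1.1.symm, fun e => h.1.2.1 e.symm, fun e => h.1.2.2 e.symm⟩,
    h.2.2, h.2.1⟩⟩
  loopless := ⟨fun _ h => h.1.1 rfl⟩

/-- those among them that are red in the colouring `C` -/
def Dg (d : ℕ) (X Y C : SimpleGraph V) : SimpleGraph V where
  Adj u v := C.Adj u v ∧ ¬ X.Adj u v ∧ dg Y u < d ∧ dg Y v < d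
  symm := ⟨fun _ _ h => ⟨h.1.symm, fun e => h.2.1 e.symm, h.2.2.2, h.2.2.1⟩⟩
  loopless := ⟨fun _ h => h.1.ne rfl⟩

lemma Comp.D_le_H (h : Comp d X Y C) : Dg d X Y C ≤ Hg d X Y := fun _ _ hab =>
  ⟨⟨hab.1.ne, hab.2.1, fun e => ((compl_adj _ _ _).1 (h.blue e)).2 hab.1⟩, hab.2.2.1, hab.2.2.2⟩

lemma Comp.lt_of_new (h : Comp d X Y C) {u v : V} (h1 : Cᶜ.Adj u v) (h2 : ¬ Y.Adj u v) :
    dg Y u < d := by
  refine lt_of_lt_of_le (card_lt_card ⟨fun x hx => mem_nb.2 (h.blue (mem_nb.1 hx)), ?_⟩) (h.dblue u)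
  intro hs
  exact h2 (mem_nb.1 (hs (mem_nb.2 h1)))

lemma Comp.key (hV : Fintype.card V = 2 * d + 1) (h : Comp d X Y C) {v : V} (hv : dg Y v < d) :
    dg (Dg d X Y C) v + d = dg (Hg d X Y) v + dg Y v := by
  classical
  have h1 : nb (Hg d X Y) v = nb (Dg d X Y C) v ∪ (nb Cᶜ v \ nb Y v) := by
    ext u
    simp only [mem_union, mem_sdiff, mem_nb]
    constructor
    · intro hu
      by_cases hc : C.Adj v u
      · exact Or.inl ⟨hc, hu.1.2.1, hu.2.1, hu.2.2⟩
      · exact Or.inr ⟨(compl_adj _ _ _).2 ⟨hu.1.1, hc⟩, hu.1.2.2⟩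
    · rintro (hu | hu)
      · exact h.D_le_H hu
      · exact ⟨⟨hu.1.ne, fun e => ((compl_adj _ _ _).1 hu.1).2 (h.red e), hu.2⟩, hv,
          h.lt_of_new hu.1.symm fun e => hu.2 e.symm⟩
  have h2 : Disjoint (nb (Dg d X Y C) v) (nb Cᶜ v \ nb Y v) := by
    rw [Finset.disjoint_left]
    intro u h1 h2
    exact ((compl_adj _ _ _).1 (mem_nb.1 (mem_sdiff.1 h2).1)).2 (mem_nb.1 h1).1
  have h3 : nb Y v ⊆ nb Cᶜ v := fun x hx => mem_nb.2 (h.blue (mem_nb.1 hx))
  have h4 := card_sdiff_add_card_eq_card h3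
  have h5 := dg_compl C v
  have h6 := h.dred v
  have h7 := h.dblue v
  have h8 := card_union_of_disjoint h2
  rw [← h1] at h8
  unfold dg at *
  omega

lemma Dg_zero {v : V} (hv : ¬ dg Y v < d) : dg (Dg d X Y C) v = 0 := by
  by_contra h
  obtain ⟨u, hu⟩ := exists_adj (Nat.one_le_iff_ne_zero.2 h)
  exact hv hu.2.2.1

lemma Comp.indep (hV : Fintype.card V = 2 * d + 1) {C' : SimpleGraph V} (h : Comp d X Y C)
    (h' : Comp d X Y C') (v : V) : dg (Dg d X Y C') v = dg (Dg d X Y C) v := by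
  by_cases hv : dg Y v < d
  · have := h.key hV hv
    have := h'.key hV hv
    omega
  · rw [Dg_zero hv, Dg_zero hv]

lemma Comp.of_blue {u v : V} (h : Comp d X (Y ⊔ edge u v) C) : Comp d X Y C :=
  ⟨h.red, le_trans le_sup_left h.blue, h.dred, h.dblue⟩

lemma Comp.of_red {u v : V} (h : Comp d (X ⊔ edge u v) Y C) : Comp d X Y C :=
  ⟨le_trans le_sup_left h.red, h.blue, h.dred, h.dblue⟩

lemma Comp.surplus (h : Comp d X Y C) : sd (Dg d X Y C) + sd X ≤ ∑ _v : V, d := by
  classical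
  rw [sd, sd, ← sum_add_distrib]
  refine sum_le_sum fun v _ => le_trans ?_ (h.dred v)
  have h2 : Disjoint (nb (Dg d X Y C) v) (nb X v) := by
    rw [Finset.disjoint_left]
    intro u h1 h2
    exact (mem_nb.1 h1).2.1 (mem_nb.1 h2)
  unfold dg
  rw [← card_union_of_disjoint h2]
  refine card_le_card fun u hu => ?_
  rcases mem_union.1 hu with h1 | h1
  · exact mem_nb.2 (mem_nb.1 h1).1
  · exact mem_nb.2 (h.red (mem_nb.1 h1))

/-- every good full colouring still needs red edges among those that blue may take -/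
def Inv (d : ℕ) (r : ℕ) (X Y : SimpleGraph V) : Prop :=
  ∀ C, Comp d X Y C → r ≤ sd (Dg d X Y C)

lemma inv_red {u v : V} (huv : u ≠ v) (h : Inv d 3 X Y) : Inv d 1 (X ⊔ edge u v) Y := by
  intro C hC
  have h1 := h C hC.of_red
  by_cases hadj : (Dg d (X ⊔ edge u v) Y C).Adj u v
  · exact absurd ((sup_edge_adj huv u v).2 (Or.inr (Or.inl ⟨rfl, rfl⟩))) hadj.2.1
  have h2 := sd_sup huv hadj
  have h3 : Dg d X Y C ≤ Dg d (X ⊔ edge u v) Y C ⊔ edge u v := by
    intro a b hab
    rw [sup_edge_adj huv]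
    by_cases he : (a = u ∧ b = v) ∨ (a = v ∧ b = u)
    · exact Or.inr he
    · refine Or.inl ⟨hab.1, ?_, hab.2.2⟩
      rw [sup_edge_adj huv]
      rintro (h4 | h4)
      · exact hab.2.1 h4
      · exact he h4
  have h4 : sd (Dg d X Y C) ≤ sd (Dg d (X ⊔ edge u v) Y C ⊔ edge u v) :=
    sum_le_sum fun x _ => dg_mono h3 x
  omega

/-- the effect of a blue move: only the edges at the newly saturated ends are lost -/
lemma after_blue (hV : Fintype.card V = 2 * d + 1) (h : Comp d X Y C) {u v : V}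
    (huv : (Hg d X Y).Adj u v) (T : Finset V)
    (hu : dg Y u + 1 < d ∨ dg (Dg d X Y C) u = 0 ∨ u ∈ T)
    (hv : dg Y v + 1 < d ∨ dg (Dg d X Y C) v = 0 ∨ v ∈ T)
    (hT : 3 + 2 * ∑ t ∈ T, dg (Dg d X Y C) t ≤ sd (Dg d X Y C)) :
    Inv d 3 X (Y ⊔ edge u v) := by
  intro C' hC'
  have hi := h.indep hV hC'.of_blue
  have key : ∀ a b, (Dg d X Y C').Adj a b → a ∉ T → dg (Y ⊔ edge u v) a < d := by
    intro a b hab ha
    have hp := dg_pos hab
    rw [hi] at hp
    by_cases hau : a = u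
    · subst hau
      rw [dg_sup_left huv.1.1 huv.1.2.2]
      rcases hu with h1 | h1 | h1
      · exact h1
      · omega
      · exact absurd h1 ha
    · by_cases hav : a = v
      · subst hav
        rw [dg_sup_right huv.1.1 huv.1.2.2]
        rcases hv with h1 | h1 | h1
        · exact h1
        · omega
        · exact absurd h1 ha
      · rw [dg_sup_other huv.1.1 hau hav]
        exact hab.2.2.1
  have h1 := sd_le_of_off (G := Dg d X Y C') (G' := Dg d X (Y ⊔ edge u v) C') T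
    fun a b hab ha hb => ⟨hab.1, hab.2.1, key a b hab ha, key b a hab.symm hb⟩
  have h2 : sd (Dg d X Y C') = sd (Dg d X Y C) := sum_congr rfl fun x _ => hi x
  have h3 : ∑ t ∈ T, dg (Dg d X Y C') t = ∑ t ∈ T, dg (Dg d X Y C) t :=
    sum_congr rfl fun x _ => hi x
  omega

lemma blue_move_comp (hV : Fintype.card V = 2 * d + 1) (h : Comp d X Y C)
    (hY : ∀ v, dg Y v ≤ d) (hs : sd X = sd Y + 2) (h1 : 1 ≤ sd (Dg d X Y C)) :
    ∃ u v, (Hg d X Y).Adj u v ∧ Inv d 3 X (Y ⊔ edge u v) := by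
  classical
  by_contra hno
  have no : ∀ u v, (Hg d X Y).Adj u v → ∃ C', Comp d X (Y ⊔ edge u v) C' ∧
      sd (Dg d X (Y ⊔ edge u v) C') < 3 := by
    intro u v huv
    by_contra hc
    exact hno ⟨u, v, huv, fun C' hC' => not_lt.1 fun hl => hc ⟨C', hC', hl⟩⟩
  set D := Dg d X Y C with hD
  have newblue : ∀ {u v : V} {C' : SimpleGraph V}, u ≠ v → Comp d X (Y ⊔ edge u v) C' →
      ¬ C'.Adj u v := fun {u v C'} huv hC' =>
    ((compl_adj _ _ _).1 (hC'.blue ((sup_edge_adj huv u v).2 (Or.inr (Or.inl ⟨rfl, rfl⟩))))).2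
  -- at least three
  have h3 : 3 ≤ sd D := by
    by_contra hlt
    have : ∃ x, 1 ≤ dg D x := by
      by_contra hc
      have : sd D = 0 := sum_eq_zero fun x _ => by
        by_contra hx
        exact hc ⟨x, Nat.one_le_iff_ne_zero.2 hx⟩
      omega
    obtain ⟨x, hx⟩ := this
    obtain ⟨y, hxy⟩ := exists_adj hx
    obtain ⟨C', hC', -⟩ := no x y (h.D_le_H hxy)
    have hi := h.indep hV hC'.of_blue
    obtain ⟨w, hw⟩ := exists_adj (G := Dg d X Y C') (v := x) (by rw [hi]; exact hx)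
    have hwy : w ≠ y := fun e => newblue hxy.ne hC' (e ▸ hw.1)
    have hw1 : 1 ≤ dg D w := by
      have := dg_pos hw.symm
      rwa [hi] at this
    have hy1 : 1 ≤ dg D y := dg_pos hxy.symm
    have hsum : ∑ t ∈ ({x, y, w} : Finset V), dg D t ≤ sd D := sum_le_sum_of_subset (subset_univ _)
    rw [sum_insert (by simp [hxy.ne, hw.ne]), sum_pair hwy.symm] at hsum
    omega
  -- every edge meets S
  have meet : ∀ u v, (Hg d X Y).Adj u v →
      (dg Y u + 1 = d ∧ 1 ≤ dg D u) ∨ (dg Y v + 1 = d ∧ 1 ≤ dg D v) := by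
    intro u v huv
    by_contra hc
    have a1 := huv.2.1
    have a2 := huv.2.2
    exact hno ⟨u, v, huv, after_blue hV h huv ∅ (by rw [← hD]; omega) (by rw [← hD]; omega)
      (by simpa using h3)⟩
  -- no vertex with an edge and without red need
  have pos : ∀ c s, (Hg d X Y).Adj c s → 1 ≤ dg D c := by
    intro c s hcs
    by_contra hc
    have hS : dg Y s + 1 = d ∧ 1 ≤ dg D s := by
      rcases meet c s hcs with h' | h'
      · exact absurd h'.2 hc
      · exact h'
    obtain ⟨t, ht⟩ := exists_adj hS.2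
    have htc : t ≠ c := fun e => hc (dg_pos (e ▸ ht.symm))
    have hst := h.D_le_H ht
    obtain ⟨C', hC', -⟩ := no s t hst
    have hi := h.indep hV hC'.of_blue
    by_cases hcol : C'.Adj c s
    · have : (Dg d X Y C').Adj c s := ⟨hcol, hcs.1.2.1, hcs.2.1, hcs.2.2⟩
      have := dg_pos this
      rw [hi] at this
      exact hc this
    · have h5 : C'ᶜ.Adj s c := (compl_adj _ _ _).2 ⟨hcs.ne', fun e => hcol e.symm⟩
      have h6 : ¬ (Y ⊔ edge s t).Adj s c := by
        rw [sup_edge_adj ht.ne]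
        rintro (h7 | h7 | h7)
        · exact hcs.1.2.2 h7.symm
        · exact htc h7.2.symm
        · exact ht.ne h7.1
      have := hC'.lt_of_new h5 h6
      rw [dg_sup_left ht.ne hst.1.2.2] at this
      omega
  have zero : ∀ v, dg D v = 0 → dg Y v = d := by
    intro v hv
    by_contra hne
    have hlt : dg Y v < d := lt_of_le_of_ne (hY v) hne
    have hk := h.key hV hlt
    rw [← hD] at hk
    obtain ⟨s, hs⟩ := exists_adj (G := Hg d X Y) (v := v) (by omega)
    have := pos v s hs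
    omega
  have hsur := h.surplus
  rw [← hD] at hsur
  -- a vertex with more blue need than red need
  have : ∃ w, dg D w + dg Y w < d := by
    by_contra hc
    have : ∑ _v : V, d ≤ ∑ v, (dg D v + dg Y v) :=
      sum_le_sum fun v _ => not_lt.1 fun hl => hc ⟨v, hl⟩
    rw [sum_add_distrib] at this
    unfold sd at *
    omega
  obtain ⟨w, hw⟩ := this
  have hw1 : 1 ≤ dg D w := by
    by_contra hc
    have := zero w (by omega)
    omega
  have hk := h.key hV (v := w) (by omega)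
  rw [← hD] at hk
  set T := nb (Hg d X Y) w with hT
  have hTS : ∀ s ∈ T, dg Y s + 1 = d ∧ 1 ≤ dg D s := by
    intro s hs
    rcases meet w s (mem_nb.1 hs) with h' | h'
    · omega
    · exact h'
  have hTbig : ∀ s ∈ T, sd D ≤ 2 * dg D s + 2 := by
    intro s hs
    by_contra hc
    exact hno ⟨w, s, mem_nb.1 hs, after_blue hV h (mem_nb.1 hs) {s} (Or.inl (by omega))
      (Or.inr (Or.inr (mem_singleton_self s))) (by rw [sum_singleton, ← hD]; omega)⟩
  have hwT : w ∉ T := fun e => (mem_nb.1 e).ne rfl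
  have hcard : T.card = dg (Hg d X Y) w := rfl
  have hsplit : ∑ t ∈ insert w T, dg D t + ∑ t ∈ (insert w T)ᶜ, dg D t = sd D :=
    sum_add_sum_compl _ _
  rw [sum_insert hwT] at hsplit
  have b1 : T.card * sd D ≤ 2 * ∑ t ∈ T, dg D t + 2 * T.card := by
    have := sum_le_sum hTbig
    rw [sum_const, smul_eq_mul, sum_add_distrib, ← mul_sum, sum_const, smul_eq_mul] at this
    omega
  have b2 : T.card ≤ ∑ t ∈ T, dg D t := by
    have := sum_le_sum fun s hs => (hTS s hs).2
    simpa using this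
  have b3 : 3 ≤ T.card := by omega
  have b4 : sd D ≤ 4 := by
    by_contra hc
    have : T.card * sd D + 2 ≤ 2 * sd D + 2 * T.card := by omega
    nlinarith
  have b5 : ∑ t ∈ (insert w T)ᶜ, dg D t = 0 := by omega
  have fin : ∀ v, d ≤ dg D v + dg Y v + if v = w then 1 else 0 := by
    intro v
    by_cases hv : v = w
    · subst hv
      simp only [if_true]
      omega
    · rw [if_neg hv]
      by_cases hvT : v ∈ T
      · have := hTS v hvT
        omega
      · have h0 := (sum_eq_zero_iff.1 b5) v (by simp [hv, hvT])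
        have := zero v h0
        omega
  have := sum_le_sum fun v (_ : v ∈ univ) => fin v
  rw [sum_add_distrib, sum_add_distrib] at this
  simp only [sum_ite_eq', mem_univ, if_true] at this
  unfold sd at *
  omega

/-- the second player always has a safe move -/
lemma safe_move (hV : Fintype.card V = 2 * d + 1) (hd : ∀ a b, X.Adj a b → ¬ Y.Adj a b)
    (hX : ∀ v, dg X v ≤ d) (hY : ∀ v, dg Y v ≤ d) (hs : sd X = sd Y + 2) :
    ∃ u v, (Hg d X Y).Adj u v := by
  classical
  by_contra hno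
  set F := (X ⊔ Y)ᶜ with hF
  have hFd : ∀ v, dg F v + dg X v + dg Y v = 2 * d := by
    intro v
    have h1 := dg_compl (X ⊔ Y) v
    have h2 : nb (X ⊔ Y) v = nb X v ∪ nb Y v := by
      ext u
      simp
    have h3 : Disjoint (nb X v) (nb Y v) := by
      rw [Finset.disjoint_left]
      intro u h1 h2
      exact hd _ _ (mem_nb.1 h1) (mem_nb.1 h2)
    have h4 := card_union_of_disjoint h3
    rw [← h2] at h4
    rw [← hF] at h1
    unfold dg at *
    omega
  set W := univ.filter (fun v => dg Y v < d) with hW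
  have h1 : ∀ w ∈ W, dg F w = (nb F w ∩ Wᶜ).card := by
    intro w hw
    unfold dg
    congr 1
    refine (inter_eq_left.2 fun u hu => mem_compl.2 fun huW => hno ⟨w, u, ?_⟩).symm
    have h2 := (compl_adj _ _ _).1 (mem_nb.1 hu)
    exact ⟨⟨h2.1, fun e => h2.2 (Or.inl e), fun e => h2.2 (Or.inr e)⟩, (mem_filter.1 hw).2,
      (mem_filter.1 huW).2⟩
  have h2 : ∑ w ∈ W, dg F w ≤ ∑ a ∈ Wᶜ, dg F a := by
    rw [sum_congr rfl h1, sum_inter]
    exact sum_le_sum fun a _ => card_le_card inter_subset_left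
  have h4 : ∑ a ∈ Wᶜ, (dg F a + dg X a) = ∑ a ∈ Wᶜ, dg Y a := sum_congr rfl fun a ha => by
    have := hFd a
    have := hY a
    have : ¬ dg Y a < d := fun e => (mem_compl.1 ha) (mem_filter.2 ⟨mem_univ _, e⟩)
    omega
  have h5 : ∑ w ∈ W, dg X w ≤ ∑ w ∈ W, (dg F w + dg Y w) :=
    sum_le_sum fun w _ => by have := hFd w; have := hX w; omega
  have h6 : ∑ a ∈ W, dg X a + ∑ a ∈ Wᶜ, dg X a = sd X := sum_add_sum_compl W _
  have h7 : ∑ a ∈ W, dg Y a + ∑ a ∈ Wᶜ, dg Y a = sd Y := sum_add_sum_compl W _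
  rw [sum_add_distrib] at h4 h5
  omega

lemma blue_move (hV : Fintype.card V = 2 * d + 1) (hd : ∀ a b, X.Adj a b → ¬ Y.Adj a b)
    (hX : ∀ v, dg X v ≤ d) (hY : ∀ v, dg Y v ≤ d) (hs : sd X = sd Y + 2) (h1 : Inv d 1 X Y) :
    ∃ u v, (Hg d X Y).Adj u v ∧ Inv d 3 X (Y ⊔ edge u v) := by
  by_cases hc : ∃ C, Comp d X Y C
  · obtain ⟨C, hC⟩ := hc
    exact blue_move_comp hV hC hY hs (h1 C hC)
  · obtain ⟨u, v, huv⟩ := safe_move hV hd hX hY hs
    exact ⟨u, v, huv, fun C hC => absurd ⟨C, hC.of_blue⟩ hc⟩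

lemma dg_le_after {u v : V} (hY : ∀ v, dg Y v ≤ d) (huv : (Hg d X Y).Adj u v) (x : V) :
    dg (Y ⊔ edge u v) x ≤ d := by
  by_cases hu : x = u
  · subst hu
    rw [dg_sup_left huv.1.1 huv.1.2.2]
    exact huv.2.1
  · by_cases hv : x = v
    · subst hv
      rw [dg_sup_right huv.1.1 huv.1.2.2]
      exact huv.2.2
    · rw [dg_sup_other huv.1.1 hu hv]
      exact hY x

lemma second_wins_aux {α : Type} (G : SimpleGraph α) (hV : Fintype.card V = 2 * d + 1)
    (hG : ∀ Z : SimpleGraph V, ¬ G.IsContained Z ↔ ∀ v, dg Z v ≤ d) (n : ℕ) :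
    ∀ X Y : SimpleGraph V, ∑ _v : V, d ≤ sd Y + n → (∀ a b, X.Adj a b → ¬ Y.Adj a b) →
      (∀ v, dg X v ≤ d) → (∀ v, dg Y v ≤ d) → sd X = sd Y → Inv d 3 X Y → Wins G false X Y := by
  induction n using Nat.strong_induction_on with
  | _ n ih =>
  intro X Y hn hd hX hY hs hI
  refine Wins.wait X Y ?_ ?_
  · by_contra hopen
    have hc := compl_eq_of_full hd hopen
    have h1 := hI X ⟨le_rfl, hc.ge, hX, hc ▸ hY⟩
    have h2 : sd (Dg d X Y X) = 0 := sum_eq_zero fun v _ => by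
      by_contra hv
      obtain ⟨u, hu⟩ := exists_adj (Nat.one_le_iff_ne_zero.2 hv)
      exact hu.2.1 hu.1
    omega
  · intro u v huv hsafe
    have hX' := (hG _).1 hsafe
    have hd' : ∀ a b, (X ⊔ edge u v).Adj a b → ¬ Y.Adj a b :=
      fun a b h1 h2 => disj_move hd huv a b h2 h1
    have hs' := sd_sup huv.1 huv.2.1
    obtain ⟨a, b, hab, hI'⟩ := blue_move hV hd' hX' hY (by omega) (inv_red huv.1 hI)
    have hY' := dg_le_after hY hab
    have hun : Unclaimed Y (X ⊔ edge u v) a b := ⟨hab.1.1, hab.1.2.2, hab.1.2.1⟩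
    have hs2 := sd_sup hab.1.1 hab.1.2.2
    have hle : sd (Y ⊔ edge a b) ≤ ∑ _v : V, d := sum_le_sum fun x _ => hY' x
    refine Wins.move _ _ a b hun ((hG _).2 hY') ?_
    exact ih (n - 1) (by omega) _ _ (by omega)
      (disj_move (fun a b h1 h2 => hd' a b h2 h1) hun) hX' hY' (by omega) hI'

theorem second_wins {α : Type} (G : SimpleGraph α) (hd : 1 ≤ d) (hV : Fintype.card V = 2 * d + 1)
    (hG : ∀ Z : SimpleGraph V, ¬ G.IsContained Z ↔ ∀ v, dg Z v ≤ d) :
    Wins G false (⊥ : SimpleGraph V) ⊥ := by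
  refine second_wins_aux G hV hG (∑ _v : V, d) ⊥ ⊥ (by omega) (by simp)
    (fun v => by simp [dg_bot]) (fun v => by simp [dg_bot]) rfl ?_
  intro C hC
  have h1 : ∀ v, 1 ≤ dg (Dg d ⊥ ⊥ C) v := by
    intro v
    have a1 := dg_compl C v
    have a2 := hC.dblue v
    obtain ⟨u, hu⟩ := exists_adj (G := C) (v := v) (by omega)
    exact dg_pos (u := u) ⟨hu, by simp, by rw [dg_bot]; omega, by rw [dg_bot]; omega⟩
  have := sum_le_sum fun v (_ : v ∈ univ) => h1 v
  simp only [sum_const, card_univ, smul_eq_mul, mul_one] at this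
  unfold sd
  omega

end Pool.Agent.MP_9fbb57_co.Gen

end

section

/-!
Stars: containment, the Ramsey number for an odd number of leaves, and the win number.
-/

namespace Pool.Agent.MP_9fbb57_co.Gen

open SimpleGraph Finset

lemma star_iff {V : Type} [Fintype V] (k : ℕ) (Z : SimpleGraph V) :
    (completeBipartiteGraph (Fin 1) (Fin k)).IsContained Z ↔ ∃ v, k ≤ dg Z v := by
  classical
  rw [show (completeBipartiteGraph (Fin 1) (Fin k)).IsContained Z ↔ _ from
    completeBipartiteGraph_isContained_iff]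
  simp only [Fintype.card_fin]
  constructor
  · rintro ⟨L, R, hL, hR, h⟩
    obtain ⟨v, rfl⟩ := card_eq_one.1 hL
    refine ⟨v, hR ▸ card_le_card fun u hu => mem_nb.2 (h (by simp) (by simpa using hu))⟩
  · rintro ⟨v, hv⟩
    obtain ⟨R, hR, hc⟩ := exists_subset_card_eq hv
    refine ⟨{v}, R, by simp, hc, fun a ha b hb => ?_⟩
    have : a = v := by simpa using ha
    subst this
    exact mem_nb.1 (hR (by simpa using hb))

/-- the circulant graph with jumps `1, …, e` on `4 e + 1` points -/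
def circ (e : ℕ) : SimpleGraph (ZMod (4 * e + 1)) where
  Adj a b := a ≠ b ∧ ((b - a).val ≤ e ∨ (a - b).val ≤ e)
  symm := ⟨fun _ _ h => ⟨h.1.symm, h.2.symm⟩⟩
  loopless := ⟨fun _ h => h.1 rfl⟩

lemma val_add_val {n : ℕ} [NeZero n] {a b : ZMod n} (h : a ≠ b) :
    (b - a).val + (a - b).val = n ∧ 0 < (b - a).val := by
  have h1 : b - a ≠ 0 := sub_ne_zero.2 h.symm
  have h2 : (a - b) = -(b - a) := by ring
  have h3 := ZMod.val_lt (b - a)
  rw [h2, ZMod.neg_val, if_neg h1]
  exact ⟨by omega, Nat.pos_of_ne_zero fun e => h1 ((ZMod.val_eq_zero _).1 e)⟩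

lemma dg_le_of_val {n : ℕ} [NeZero n] (G : SimpleGraph (ZMod n)) (a : ZMod n) (S : Finset ℕ)
    (h : ∀ b, G.Adj a b → (b - a).val ∈ S) : dg G a ≤ S.card := by
  refine card_le_card_of_injOn (fun b => (b - a).val) (fun b hb => h b (mem_nb.1 hb)) ?_
  intro b _ c _ hbc
  have := ZMod.val_injective n hbc
  simpa using this

lemma circ_dg (e : ℕ) (a : ZMod (4 * e + 1)) : dg (circ e) a ≤ 2 * e ∧ dg (circ e)ᶜ a ≤ 2 * e := by
  constructor
  · refine le_trans (dg_le_of_val _ a (Icc 1 e ∪ Icc (3 * e + 1) (4 * e)) fun b hb => ?_) ?_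
    · have := val_add_val hb.1
      have := hb.2
      have := ZMod.val_lt (b - a)
      simp only [mem_union, mem_Icc]
      omega
    · refine le_trans (card_union_le _ _) ?_
      simp only [Nat.card_Icc]
      omega
  · refine le_trans (dg_le_of_val _ a (Icc (e + 1) (3 * e)) fun b hb => ?_) ?_
    · rw [compl_adj] at hb
      have := val_add_val hb.1
      have h2 : ¬ ((b - a).val ≤ e ∨ (a - b).val ≤ e) := fun h => hb.2 ⟨hb.1, h⟩
      simp only [mem_Icc]
      omega
    · simp only [Nat.card_Icc]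
      omega

lemma star_arrow (k N : ℕ) (hk : 1 ≤ k) (hN : 2 * k ≤ N) (X : SimpleGraph (Fin N)) :
    (completeBipartiteGraph (Fin 1) (Fin k)).IsContained X ∨
      (completeBipartiteGraph (Fin 1) (Fin k)).IsContained Xᶜ := by
  rw [star_iff, star_iff]
  have := dg_compl X ⟨0, by omega⟩
  rw [Fintype.card_fin] at this
  by_cases h : k ≤ dg X ⟨0, by omega⟩
  · exact Or.inl ⟨_, h⟩
  · exact Or.inr ⟨⟨0, by omega⟩, by omega⟩

lemma star_ramsey (e : ℕ) :
    IsRamseyNumber (completeBipartiteGraph (Fin 1) (Fin (2 * e + 1))) (2 * (2 * e + 1)) := by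
  refine ⟨star_arrow _ _ (by omega) le_rfl, fun N hN => ?_⟩
  by_contra hlt
  obtain ⟨f⟩ : Nonempty (Fin N ↪ ZMod (4 * e + 1)) :=
    Function.Embedding.nonempty_of_card_le (by rw [Fintype.card_fin, ZMod.card]; omega)
  have := arrow_mono _ f hN (circ e)
  rw [star_iff, star_iff] at this
  rcases this with ⟨v, hv⟩ | ⟨v, hv⟩
  · have := (circ_dg e v).1
    omega
  · have := (circ_dg e v).2
    omega

lemma star_second (d : ℕ) (hd : 1 ≤ d) :
    Wins (completeBipartiteGraph (Fin 1) (Fin (d + 1))) false (⊥ : SimpleGraph (Fin (2 * d + 1))) ⊥ := by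
  refine second_wins _ hd (Fintype.card_fin _) fun Z => ?_
  rw [star_iff, not_exists]
  exact forall_congr' fun v => by omega

lemma star_decided (d : ℕ) (hd : 1 ≤ d) (N : ℕ) (hN : 2 * d + 1 ≤ N) :
    Decided (completeBipartiteGraph (Fin 1) (Fin (d + 1))) N := by
  rcases hN.eq_or_lt with rfl | h
  · exact Or.inr (star_second d hd)
  · exact decided_of_balanced _ N (by omega) fun C _ => star_arrow _ _ (by omega) (by omega) C

theorem star_main (k : ℕ) (hk : 3 ≤ k) (hodd : Odd k) :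
    ∃ w : ℕ, IsWinNumber (completeBipartiteGraph (Fin 1) (Fin k)) w ∧
      IsRamseyNumber (completeBipartiteGraph (Fin 1) (Fin k)) (2 * k) ∧
      2 * (k : ℝ) - √(8 * k * Real.log (2 * k)) ≤ w ∧ w < 2 * k := by
  obtain ⟨e, rfl⟩ := hodd
  obtain ⟨w, hw, hle⟩ := exists_winNumber _ _ (star_decided (2 * e) (by omega))
  refine ⟨w, hw, star_ramsey e, ?_, by omega⟩
  exact winNumber_lower _ _ (by omega) (fun N Z h => (star_iff _ Z).1 h) (hw.1 w le_rfl)

end Pool.Agent.MP_9fbb57_co.Gen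

end
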