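import Pool.Agent.MP_9fbb57_co.BroomDef
import Pool.Agent.Mg.F9fbb57a.G31c768

/-!
The win number and the Ramsey number of a clique with pendant edges at one vertex.
-/

namespace Pool.Agent.MP_9fbb57_co.Gen

open SimpleGraph Finset

variable {V : Type} [Fintype V] {q n : ℕ} {c : Fin q}

lemma broom_deg {Z : SimpleGraph V} (h : (broom q n c).IsContained Z) :
    ∃ v, n + q - 1 ≤ dg Z v := by
  classical
  obtain ⟨f⟩ := h
  refine ⟨f (Sum.inl c), ?_⟩
  have h1 : ((univ : Finset (Fin q ⊕ Fin n)).erase (Sum.inl c)).card ≤ dg Z (f (Sum.inl c)) := by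
    refine card_le_card_of_injOn f (fun x hx => ?_) f.injective.injOn
    have hx' : x ≠ Sum.inl c := (mem_erase.1 hx).1
    exact mem_nb.2 (f.toHom.map_adj ⟨hx'.symm, Or.inl (Or.inr rfl)⟩)
  rw [card_erase_of_mem (mem_univ _), card_univ, Fintype.card_sum, Fintype.card_fin,
    Fintype.card_fin] at h1
  omega

lemma broom_clique {Z : SimpleGraph V} (h : (broom q n c).IsContained Z) :
    ∃ g : Fin q → V, ∀ a b, a ≠ b → Z.Adj (g a) (g b) := by
  obtain ⟨f⟩ := h
  exact ⟨fun a => f (Sum.inl a), fun a b hab =>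
    f.toHom.map_adj ⟨by simpa using hab, Or.inl (Or.inl ⟨rfl, rfl⟩)⟩⟩

lemma broom_of {Z : SimpleGraph V} {K : Finset V} (hK : Z.IsNClique q K) {v : V} (hv : v ∈ K)
    (hd : n + q - 1 ≤ dg Z v) : (broom q n c).IsContained Z := by
  classical
  have h1 : n ≤ (nb Z v \ K).card := by
    have a1 : nb Z v ⊆ (nb Z v \ K) ∪ K.erase v := by
      intro u hu
      by_cases h : u ∈ K
      · exact mem_union_right _ (mem_erase.2 ⟨(mem_nb.1 hu).ne', h⟩)
      · exact mem_union_left _ (mem_sdiff.2 ⟨hu, h⟩)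
    have a2 := (card_le_card a1).trans (card_union_le _ _)
    rw [card_erase_of_mem hv, hK.card_eq] at a2
    have := c.pos
    unfold dg at hd
    omega
  obtain ⟨T, hT, hTc⟩ := exists_subset_card_eq h1
  let e0 : Fin q ≃ K := (Finset.equivFinOfCardEq hK.card_eq).symm
  let e : Fin q ≃ K := (Equiv.swap c (e0.symm ⟨v, hv⟩)).trans e0
  have ec : (e c : V) = v := by simp [e]
  let g : Fin n ≃ T := (Finset.equivFinOfCardEq hTc).symm
  have hg : ∀ t, Z.Adj v (g t) ∧ (g t : V) ∉ K := fun t =>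
    ⟨mem_nb.1 (mem_sdiff.1 (hT (g t).2)).1, (mem_sdiff.1 (hT (g t).2)).2⟩
  have he : ∀ a b, a ≠ b → Z.Adj (e a) (e b) := fun a b hab =>
    hK.isClique (e a).2 (e b).2 fun h => hab (e.injective (Subtype.ext h))
  refine ⟨⟨⟨Sum.elim (fun a => (e a : V)) (fun t => (g t : V)), ?_⟩, ?_⟩⟩
  · rintro (a | a) (b | b) ⟨h1, h2⟩
    · exact he a b (by simpa using h1)
    · have : a = c := by simpa using h2
      subst this
      simpa [ec] using (hg b).1
    · have : b = c := by simpa using h2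
      subst this
      simpa [ec] using (hg a).1.symm
    · simp at h2
  · rintro (a | a) (b | b) h
    · exact congrArg _ (e.injective (Subtype.ext h))
    · exact absurd (show (g b : V) ∈ K from (show (e a : V) = g b from h) ▸ (e a).2) (hg b).2
    · exact absurd (show (g a : V) ∈ K from (show (g a : V) = e b from h) ▸ (e b).2) (hg a).2
    · exact congrArg _ (g.injective (Subtype.ext h))

omit [Fintype V] in
lemma clique_of_top {r : ℕ} {S : Finset V} (f : Fin r ↪ S) {Z : SimpleGraph V}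
    {X : SimpleGraph (Fin r)} (hX : ∀ a b, X.Adj a b → Z.Adj (f a) (f b))
    (h : (⊤ : SimpleGraph (Fin q)).IsContained X) : ∃ K ⊆ S, Z.IsNClique q K := by
  classical
  obtain ⟨g⟩ := h
  have inj : Function.Injective fun a => (f (g a) : V) :=
    Subtype.val_injective.comp (f.injective.comp g.injective)
  refine ⟨univ.image fun a => (f (g a) : V), ?_, ?_, ?_⟩
  · intro x hx
    obtain ⟨a, -, rfl⟩ := mem_image.1 hx
    exact (f (g a)).2
  · intro x hx y hy hxy
    obtain ⟨a, -, rfl⟩ := mem_image.1 (mem_coe.1 hx)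
    obtain ⟨b, -, rfl⟩ := mem_image.1 (mem_coe.1 hy)
    exact hX _ _ (g.toHom.map_adj (fun e => hxy (by rw [e])))
  · rw [card_image_of_injective _ inj, card_univ, Fintype.card_fin]

omit [Fintype V] in
lemma sub_arrow {r : ℕ} (h : ∀ X : SimpleGraph (Fin r),
      (⊤ : SimpleGraph (Fin q)).IsContained X ∨ (⊤ : SimpleGraph (Fin q)).IsContained Xᶜ)
    (Z : SimpleGraph V) (S : Finset V) (hS : r ≤ S.card) :
    (∃ K ⊆ S, Z.IsNClique q K) ∨ ∃ K ⊆ S, Zᶜ.IsNClique q K := by
  obtain ⟨f⟩ : Nonempty (Fin r ↪ S) :=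
    Function.Embedding.nonempty_of_card_le (by rw [Fintype.card_fin, Fintype.card_coe]; exact hS)
  rcases h (Z.comap fun a => (f a : V)) with h1 | h1
  · exact Or.inl (clique_of_top f (fun a b hab => hab) h1)
  · refine Or.inr (clique_of_top f (fun a b hab => ?_) h1)
    rw [compl_adj] at hab ⊢
    exact ⟨fun e => hab.1 (f.injective (Subtype.ext e)), hab.2⟩

open Classical in
/-- vertices of large degree -/
noncomputable def hi (D : ℕ) (Z : SimpleGraph V) : Finset V := univ.filter fun v => D ≤ dg Z v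

lemma mem_hi {D : ℕ} {Z : SimpleGraph V} {v : V} : v ∈ hi D Z ↔ D ≤ dg Z v := by simp [hi]

lemma few_nb [DecidableEq V] {r : ℕ} (h : ∀ X : SimpleGraph (Fin r),
      (⊤ : SimpleGraph (Fin q)).IsContained X ∨ (⊤ : SimpleGraph (Fin q)).IsContained Xᶜ)
    {Z : SimpleGraph V} (h1 : ¬ (broom q n c).IsContained Z) (h2 : ¬ (broom q n c).IsContained Zᶜ)
    {v : V} (hv : v ∈ hi (n + q - 1) Z) : (nb Z v ∩ hi (n + q - 1) Zᶜ).card + 1 ≤ r := by
  by_contra hc
  have q0 := c.pos
  rcases sub_arrow h Z (nb Z v ∩ hi (n + q - 1) Zᶜ) (by omega) with ⟨K, hK, hc⟩ | ⟨K, hK, hc⟩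
  · obtain ⟨x, hx⟩ : K.Nonempty := card_pos.1 (by rw [hc.card_eq]; exact q0)
    have a1 : Z.IsNClique (q - 1) (K.erase x) :=
      ⟨hc.isClique.subset (by simp), by rw [card_erase_of_mem hx, hc.card_eq]⟩
    have a2 := a1.insert (a := v) fun b hb => mem_nb.1 (mem_inter.1 (hK (mem_of_mem_erase hb))).1
    rw [Nat.sub_add_cancel q0] at a2
    exact h1 (broom_of a2 (mem_insert_self _ _) (mem_hi.1 hv))
  · obtain ⟨x, hx⟩ : K.Nonempty := card_pos.1 (by rw [hc.card_eq]; exact q0)
    exact h2 (broom_of hc hx (mem_hi.1 (mem_inter.1 (hK hx)).2))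

lemma one_small {r : ℕ} (h : ∀ X : SimpleGraph (Fin r),
      (⊤ : SimpleGraph (Fin q)).IsContained X ∨ (⊤ : SimpleGraph (Fin q)).IsContained Xᶜ)
    (hr : 1 ≤ r) {Z : SimpleGraph V} (h1 : ¬ (broom q n c).IsContained Z)
    (h2 : ¬ (broom q n c).IsContained Zᶜ) :
    (hi (n + q - 1) Z).card < 2 * r ∨ (hi (n + q - 1) Zᶜ).card < 2 * r := by
  classical
  set A := hi (n + q - 1) Z with hA
  set B := hi (n + q - 1) Zᶜ with hB
  have a1 : ∀ a ∈ A, B.card ≤ r + (nb Zᶜ a ∩ B).card := by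
    intro a ha
    have b1 : B ⊆ insert a (nb Z a ∩ B) ∪ (nb Zᶜ a ∩ B) := by
      intro b hb
      by_cases e : b = a
      · exact mem_union_left _ (mem_insert.2 (Or.inl e))
      by_cases e' : Z.Adj a b
      · exact mem_union_left _ (mem_insert_of_mem (mem_inter.2 ⟨mem_nb.2 e', hb⟩))
      · exact mem_union_right _
          (mem_inter.2 ⟨mem_nb.2 ((compl_adj _ _ _).2 ⟨fun e2 => e e2.symm, e'⟩), hb⟩)
    have b2 := (card_le_card b1).trans (card_union_le _ _)
    have b3 := card_insert_le a (nb Z a ∩ B)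
    have b4 := few_nb h h1 h2 ha
    rw [← hB] at b4
    omega
  have a2 := sum_le_sum a1
  rw [sum_const, smul_eq_mul, sum_add_distrib, sum_const, smul_eq_mul, sum_inter] at a2
  have a3 : ∑ b ∈ B, ((nb Zᶜ b ∩ A).card + 1) ≤ ∑ _b ∈ B, r := sum_le_sum fun b hb => by
    have := few_nb (Z := Zᶜ) h h2 (by rwa [compl_compl]) hb
    rwa [compl_compl] at this
  rw [sum_add_distrib, sum_const, sum_const, smul_eq_mul, smul_eq_mul, mul_one] at a3
  by_contra hc
  have c1 : 2 * r ≤ A.card := by omega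
  have c2 : 2 * r ≤ B.card := by omega
  nlinarith [Nat.mul_le_mul_left A.card c2, Nat.mul_le_mul_left B.card c1]

lemma cover {D : ℕ} (hN : 2 * D ≤ Fintype.card V) (Z : SimpleGraph V) {v : V} (hv : v ∉ hi D Z) :
    v ∈ hi D Zᶜ := by
  rw [mem_hi] at hv ⊢
  have := dg_compl Z v
  omega

lemma sd_small {r : ℕ} (h : ∀ X : SimpleGraph (Fin r),
      (⊤ : SimpleGraph (Fin q)).IsContained X ∨ (⊤ : SimpleGraph (Fin q)).IsContained Xᶜ)
    {Z : SimpleGraph V} (h1 : ¬ (broom q n c).IsContained Z) (h2 : ¬ (broom q n c).IsContained Zᶜ)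
    (hN : 2 * (n + q - 1) ≤ Fintype.card V) (hN' : 6 * r ≤ Fintype.card V)
    (hs : (hi (n + q - 1) Z).card < 2 * r) :
    2 * sd Z + 2 * Fintype.card V ≤ Fintype.card V * Fintype.card V := by
  classical
  have a1 : ∀ v, 2 * dg Z v + 2 ≤ Fintype.card V := by
    intro v
    by_cases hv : v ∈ hi (n + q - 1) Z
    · have b1 : nb Z v ⊆ (nb Z v ∩ hi (n + q - 1) Zᶜ) ∪ hi (n + q - 1) Z := by
        intro u hu
        by_cases e : u ∈ hi (n + q - 1) Z
        · exact mem_union_right _ e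
        · exact mem_union_left _ (mem_inter.2 ⟨hu, cover hN Z e⟩)
      have b2 := (card_le_card b1).trans (card_union_le _ _)
      have b3 := few_nb h h1 h2 hv
      unfold dg
      omega
    · rw [mem_hi] at hv
      omega
  have := sum_le_sum fun v (_ : v ∈ univ) => a1 v
  rw [sum_add_distrib, ← mul_sum, sum_const, sum_const, card_univ, smul_eq_mul, smul_eq_mul] at this
  unfold sd
  omega

lemma greedy (Z : SimpleGraph V) (D : ℕ) (k : ℕ) : ∀ S : Finset V, (∀ v ∈ S, dg Z v < D) →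
    k * D < S.card → ∃ K ⊆ S, Zᶜ.IsNClique (k + 1) K := by
  classical
  induction k with
  | zero =>
    intro S _ hS
    obtain ⟨v, hv⟩ := card_pos.1 (show 0 < S.card by omega)
    exact ⟨{v}, by simpa using hv, by simp⟩
  | succ k ih =>
    intro S hd hS
    obtain ⟨v, hv⟩ := card_pos.1 (show 0 < S.card by omega)
    have a1 := le_card_sdiff (insert v (nb Z v)) S
    have a2 := card_insert_le v (nb Z v)
    have a3 := hd v hv
    unfold dg at a3
    obtain ⟨K, hK, hc⟩ := ih (S \ insert v (nb Z v)) (fun u hu => hd u (mem_sdiff.1 hu).1)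
      (by rw [Nat.succ_mul] at hS; omega)
    refine ⟨insert v K, insert_subset hv (hK.trans sdiff_subset), hc.insert fun b hb => ?_⟩
    have := (mem_sdiff.1 (hK hb)).2
    rw [mem_insert, not_or, mem_nb] at this
    exact (compl_adj _ _ _).2 ⟨fun e => this.1 e.symm, this.2⟩

lemma card_small {r : ℕ} {Z : SimpleGraph V} (h2 : ¬ (broom q n c).IsContained Zᶜ)
    (hN : 2 * (n + q - 1) ≤ Fintype.card V) (hs : (hi (n + q - 1) Z).card < 2 * r) :
    Fintype.card V < (q - 1) * (n + q - 1) + 2 * r := by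
  classical
  by_contra hc
  have a1 := card_compl (hi (n + q - 1) Z)
  obtain ⟨K, hK, hc⟩ := greedy Z (n + q - 1) (q - 1) (hi (n + q - 1) Z)ᶜ
    (fun v hv => not_le.1 fun e => mem_compl.1 hv (mem_hi.2 e)) (by omega)
  rw [Nat.sub_add_cancel c.pos] at hc
  obtain ⟨x, hx⟩ : K.Nonempty := card_pos.1 (by rw [hc.card_eq]; exact c.pos)
  exact h2 (broom_of hc hx (mem_hi.1 (cover hN Z (mem_compl.1 (hK hx)))))

/-- disjoint cliques -/
def blocks (a D : ℕ) : SimpleGraph (Fin a × Fin D) where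
  Adj x y := x ≠ y ∧ x.1 = y.1
  symm := ⟨fun _ _ h => ⟨h.1.symm, h.2.symm⟩⟩
  loopless := ⟨fun _ h => h.1 rfl⟩

lemma blocks_good : ¬ (broom q n c).IsContained (blocks (q - 1) (n + q - 1)) ∧
    ¬ (broom q n c).IsContained (blocks (q - 1) (n + q - 1))ᶜ := by
  constructor
  · intro h
    obtain ⟨v, hv⟩ := broom_deg h
    have : dg (blocks (q - 1) (n + q - 1)) v ≤ (univ.erase v.2).card := by
      refine card_le_card_of_injOn Prod.snd (fun x hx => ?_) fun x hx y hy e => ?_
      · have := mem_nb.1 hx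
        exact mem_erase.2 ⟨fun e => this.1 (Prod.ext this.2 e.symm), mem_univ _⟩
      · exact Prod.ext ((mem_nb.1 hx).2.symm.trans (mem_nb.1 hy).2) e
    rw [card_erase_of_mem (mem_univ _), card_univ, Fintype.card_fin] at this
    have := v.2.pos
    omega
  · intro h
    obtain ⟨g, hg⟩ := broom_clique h
    have inj : Function.Injective fun a => (g a).1 := by
      intro a b e
      by_contra hab
      have := (compl_adj _ _ _).1 (hg a b hab)
      exact this.2 ⟨this.1, e⟩
    have := Fintype.card_le_of_injective _ inj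
    rw [Fintype.card_fin, Fintype.card_fin] at this
    have := c.pos
    omega

theorem broom_main (q n r : ℕ) (c : Fin q) (hq : 3 ≤ q)
    (hr : IsRamseyNumber (⊤ : SimpleGraph (Fin q)) r) :
    ∃ w R : ℕ, IsWinNumber (broom q n c) w ∧ IsRamseyNumber (broom q n c) R ∧
      2 * ((n + q - 1 : ℕ) : ℝ) - √(8 * ((n + q - 1 : ℕ) : ℝ) * Real.log (2 * ((n + q - 1 : ℕ) : ℝ))) ≤ w ∧
      w ≤ max (2 * (n + q - 1)) (6 * r) ∧
      (q - 1) * (n + q - 1) < R ∧ R ≤ (q - 1) * (n + q - 1) + 2 * r := by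
  have r1 : 1 ≤ r := by
    by_contra hc
    obtain rfl : r = 0 := by omega
    rcases hr.1 ⊥ with ⟨⟨f⟩⟩ | ⟨⟨f⟩⟩ <;> exact (f c).elim0
  have hdec : ∀ N, max (2 * (n + q - 1)) (6 * r) ≤ N → Decided (broom q n c) N := by
    intro N hN
    have n1 : 2 * (n + q - 1) ≤ Fintype.card (Fin N) := by rw [Fintype.card_fin]; omega
    have n2 : 6 * r ≤ Fintype.card (Fin N) := by rw [Fintype.card_fin]; omega
    refine decided_of_balanced _ N (by omega) fun C hC => ?_
    by_contra hc
    rw [not_or] at hc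
    have e := sd_compl C
    rcases one_small hr.1 r1 hc.1 hc.2 with h | h
    · have := sd_small hr.1 hc.1 hc.2 n1 n2 h
      omega
    · have := sd_small (Z := Cᶜ) hr.1 hc.2 (by rw [compl_compl]; exact hc.1) n1 n2 h
      omega
  obtain ⟨w, hw, hle⟩ := exists_winNumber _ _ hdec
  have harr : ∀ X : SimpleGraph (Fin ((q - 1) * (n + q - 1) + 2 * r)),
      (broom q n c).IsContained X ∨ (broom q n c).IsContained Xᶜ := by
    intro X
    by_contra hc
    rw [not_or] at hc
    have n1 : 2 * (n + q - 1) ≤ Fintype.card (Fin ((q - 1) * (n + q - 1) + 2 * r)) := by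
      rw [Fintype.card_fin]
      have := Nat.mul_le_mul_right (n + q - 1) (show 2 ≤ q - 1 by omega)
      omega
    rcases one_small hr.1 r1 hc.1 hc.2 with h | h
    · have := card_small hc.2 n1 h
      rw [Fintype.card_fin] at this
      omega
    · have := card_small (Z := Xᶜ) (c := c) (by rw [compl_compl]; exact hc.1) n1 h
      rw [Fintype.card_fin] at this
      omega
  have hne : {N : ℕ | ∀ X : SimpleGraph (Fin N),
      (broom q n c).IsContained X ∨ (broom q n c).IsContained Xᶜ}.Nonempty := ⟨_, harr⟩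
  refine ⟨w, sInf _, hw, ⟨Nat.sInf_mem hne, fun _ hm => Nat.sInf_le hm⟩, ?_, hle, ?_,
    Nat.sInf_le harr⟩
  · exact winNumber_lower _ _ (by omega) (fun N Z h => broom_deg h) (hw.1 w le_rfl)
  · by_contra hc
    obtain ⟨f⟩ : Nonempty (Fin (sInf {N : ℕ | ∀ X : SimpleGraph (Fin N),
        (broom q n c).IsContained X ∨ (broom q n c).IsContained Xᶜ}) ↪
        Fin (q - 1) × Fin (n + q - 1)) :=
      Function.Embedding.nonempty_of_card_le (by
        rw [Fintype.card_fin, Fintype.card_prod, Fintype.card_fin, Fintype.card_fin]; omega)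
    rcases arrow_mono _ f (Nat.sInf_mem hne) (blocks (q - 1) (n + q - 1)) with h | h
    · exact blocks_good.1 h
    · exact blocks_good.2 h

end Pool.Agent.MP_9fbb57_co.Gen
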